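import Pool.Agent.Q295.TP.Tor

/-!
# All of `k` points in one cycle, at arbitrary positions
-/

set_option autoImplicit false
set_option linter.unusedSectionVars false

namespace Pool.Agent.Q295.CD

open Finset Equiv
open Pool.Agent.Y998.ST
open Pool.Agent.Y998.LP (NN tdist bfrac)
open Pool.Agent.Y998.LQ (bfrac_nonneg bfrac_le_one)
open Pool.Agent.TH268.PD (Cyc cyOf)
open Pool.Agent.Q295.TP

section gen

variable {V : Type} [Fintype V] [DecidableEq V]

/-- all points -/
def RT (k : ℕ) : Fin k → Fin k → Prop := fun _ _ => True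

theorem av_prod {k : ℕ} (hk : 1 ≤ k) (A : Fin k → Finset V) (g : Perm V) [Fintype (Cyc g)] :
    av A (ei (RT k) g) = ∑ γ : Cyc g, ∏ i, bfrac (A i) g γ := by
  classical
  have h1 : ∀ c : Fin k → V, ei (RT k) g c =
      ∑ γ : Cyc g, ∏ i, (if cyOf g (c i) = γ then (1 : ℝ) else 0) := by
    intro c
    unfold ei Ev
    obtain ⟨i0⟩ : Nonempty (Fin k) := ⟨⟨0, by omega⟩⟩
    rw [Finset.sum_eq_single (cyOf g (c i0))]
    · by_cases h : ∀ i j, RT k i j → g.SameCycle (c i) (c j)
      · rw [if_pos h]
        symm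
        exact Finset.prod_eq_one fun i _ => if_pos ((cy_iff g _ _).2 (h i i0 trivial))
      · rw [if_neg h]
        unfold RT at h
        push Not at h
        obtain ⟨i, j, _, hij⟩ := h
        by_cases hi : g.SameCycle (c i) (c i0)
        · have hj : ¬ g.SameCycle (c j) (c i0) := fun hj => hij (hi.trans hj.symm)
          exact (Finset.prod_eq_zero (Finset.mem_univ j)
            (if_neg fun h2 => hj ((cy_iff g _ _).1 h2))).symm
        · exact (Finset.prod_eq_zero (Finset.mem_univ i)
            (if_neg fun h2 => hi ((cy_iff g _ _).1 h2))).symm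
    · intro γ _ hγ
      exact Finset.prod_eq_zero (Finset.mem_univ i0) (if_neg (Ne.symm hγ))
    · intro h; exact absurd (Finset.mem_univ _) h
  unfold av
  simp only [h1]
  rw [Finset.sum_comm, Finset.sum_div]
  refine Finset.sum_congr rfl fun γ _ => ?_
  have h2 := (Finset.prod_univ_sum A (fun (_ : Fin k) (x : V) =>
    if cyOf g x = γ then (1 : ℝ) else 0)).symm
  rw [h2, Fintype.card_piFinset]
  push_cast
  rw [← Finset.prod_div_distrib]
  exact Finset.prod_congr rfl fun i _ => (bfrac_eq (A i) g γ).symm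

theorem amgm {k : ℕ} (hk : 1 ≤ k) (x : Fin k → ℝ) (hx : ∀ i, 0 ≤ x i) :
    ∏ i, x i ≤ (∑ i, x i ^ k) / k := by
  have hk0 : (0 : ℝ) < k := by exact_mod_cast hk
  have h := Real.geom_mean_le_arith_mean_weighted Finset.univ (fun _ : Fin k => 1 / (k : ℝ))
    (fun i => x i ^ k) (fun i _ => by positivity) (by
      rw [Finset.sum_const, Finset.card_univ, Fintype.card_fin, nsmul_eq_mul]
      field_simp) (fun i _ => pow_nonneg (hx i) k)
  have e1 : ∏ i, (x i ^ k) ^ (1 / (k : ℝ)) = ∏ i, x i := by
    refine Finset.prod_congr rfl fun i _ => ?_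
    rw [one_div]
    exact Real.pow_rpow_inv_natCast (hx i) (by omega)
  rw [e1] at h
  refine h.trans (le_of_eq ?_)
  rw [Finset.sum_div]
  exact Finset.sum_congr rfl fun i _ => by ring

theorem av_le_mean {k : ℕ} (hk : 1 ≤ k) (A : Fin k → Finset V) (g : Perm V) :
    av A (ei (RT k) g) ≤ (∑ i, av (fun _ : Fin k => A i) (ei (RT k) g)) / k := by
  haveI : Finite (Cyc g) := Quotient.finite _
  haveI := Fintype.ofFinite (Cyc g)
  simp only [av_prod hk]
  have h1 : ∀ γ : Cyc g, ∏ i, bfrac (A i) g γ ≤ (∑ i, bfrac (A i) g γ ^ k) / k :=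
    fun γ => amgm hk _ fun i => bfrac_nonneg _ _ _
  refine (Finset.sum_le_sum fun γ _ => h1 γ).trans (le_of_eq ?_)
  rw [← Finset.sum_div, Finset.sum_comm]
  congr 1
  refine Finset.sum_congr rfl fun i _ => Finset.sum_congr rfl fun γ _ => ?_
  rw [Finset.prod_const, Finset.card_univ, Fintype.card_fin]

theorem exp_av' (J : V → V → ℝ) (t : ℝ) {k : ℕ} (R : Fin k → Fin k → Prop)
    (S : Fin k → Finset V) : av S (PR J t R) = stirExp J t (fun g => av S (ei R g)) := by
  unfold av PR
  simp only [exp_sum]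
  unfold stirExp
  rw [Finset.sum_div]
  exact Finset.sum_congr rfl fun g _ => by ring

/-- `k` points at arbitrary positions -/
theorem conn {J : V → V → ℝ} (hJ : ∀ x y, 0 ≤ J x y) {t : ℝ} (ht : 0 ≤ t)
    {k : ℕ} (hk : 1 ≤ k) (b : Fin k → V) (hb : Function.Injective b)
    {A : Fin k → Finset V} {n : ℕ} (hn : 0 < n) (hA : ∀ i, (A i).card = n) (η : ℝ) (hη : 0 ≤ η)
    (hbA : ∀ i, b i ∈ A i) (h : ∀ i, ∀ x ∈ A i, ∀ y ∈ A i, NN J t (swap x y) ≤ η) :
    PR J t (RT k) b ≤ uR (RT k) + 3 * k * η + 3 * ((k : ℝ) ^ 2 / n) := by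
  have hk0 : (0 : ℝ) < k := by exact_mod_cast hk
  have h1 := stepA hJ ht (RT k) b hb hn hA η hη (fun i v hv => h i _ (hbA i) _ hv)
  have h2 : ∀ i, av (fun _ : Fin k => A i) (PR J t (RT k)) ≤
      uR (RT k) + (k * η + (k : ℝ) ^ 2 / n) := by
    intro i
    have := stepC hJ ht (RT k) hn (hA i) η hη (h i)
    linarith [(abs_le.1 this).1]
  have h3 : av A (PR J t (RT k)) ≤ (∑ i, av (fun _ : Fin k => A i) (PR J t (RT k))) / k := by
    simp only [exp_av']
    rw [exp_sum]
    refine (exp_mono hJ ht fun g => av_le_mean hk A g).trans (le_of_eq ?_)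
    unfold stirExp
    rw [Finset.sum_div]
    exact Finset.sum_congr rfl fun g _ => by ring
  have h4 : (∑ i, av (fun _ : Fin k => A i) (PR J t (RT k))) / k ≤
      uR (RT k) + (k * η + (k : ℝ) ^ 2 / n) := by
    rw [div_le_iff₀ hk0]
    refine (Finset.sum_le_sum fun i _ => h2 i).trans (le_of_eq ?_)
    rw [Finset.sum_const, Finset.card_univ, Fintype.card_fin, nsmul_eq_mul]
    ring
  have h5 := (abs_le.1 h1).2
  linarith

end gen

/-- a uniform permutation of `k` letters has one cycle with probability `1 / k` -/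
theorem unif_one {k : ℕ} (hk : 1 ≤ k) : uR (RT k) = 1 / k := by
  classical
  unfold uR
  have hk0 : (0 : ℝ) < k := by exact_mod_cast hk
  have hf : (0 : ℝ) < (k.factorial : ℝ) := by exact_mod_cast k.factorial_pos
  rcases Nat.lt_or_ge 1 k with h2 | h2
  · have key : ∀ π : Perm (Fin k), Ev (RT k) π id ↔ π.cycleType = {k} := by
      intro π
      unfold Ev RT
      constructor
      · intro h
        have hmov : ∀ x, π x ≠ x := by
          intro x hx
          obtain ⟨y, hy⟩ : ∃ y : Fin k, y ≠ x := by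
            haveI : Nontrivial (Fin k) := Fin.nontrivial_iff_two_le.2 (by omega)
            exact exists_ne x
          have h3 := h x y trivial
          exact hy (h3.eq_of_left hx).symm
        have hsup : π.support = Finset.univ := by
          ext x
          simp [Perm.mem_support, hmov x]
        have hcyc : π.IsCycle := ⟨⟨0, by omega⟩, hmov _, fun y _ => h _ y trivial⟩
        rw [hcyc.cycleType, hsup, Finset.card_univ, Fintype.card_fin]
      · intro h i j _
        have hcyc : π.IsCycle := by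
          rw [← Perm.card_cycleType_eq_one, h, Multiset.card_singleton]
        have hs : π.support.card = k := by
          rw [← Perm.sum_cycleType, h, Multiset.sum_singleton]
        have hsup : π.support = Finset.univ := by
          apply Finset.eq_univ_of_card
          rw [hs, Fintype.card_fin]
        have hmov : ∀ x, π x ≠ x := fun x => by
          rw [← Perm.mem_support, hsup]; exact Finset.mem_univ _
        exact hcyc.sameCycle (hmov _) (hmov _)
    simp only [key]
    rw [Finset.sum_boole]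
    have h3 := Equiv.Perm.card_of_cycleType_singleton (α := Fin k) (n := k) (by omega)
      (by rw [Fintype.card_fin])
    have h4 : (Finset.univ.filter fun π : Perm (Fin k) => π.cycleType = {k}).card =
        (k - 1).factorial := by
      rw [h3, Fintype.card_fin, Nat.choose_self, mul_one]
    rw [h4]
    have h5 : k.factorial = k * (k - 1).factorial := (Nat.mul_factorial_pred (by omega)).symm
    have h6 : (0 : ℝ) < ((k - 1).factorial : ℝ) := by exact_mod_cast (k - 1).factorial_pos
    rw [h5]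
    push_cast
    field_simp
  · have hk1 : k = 1 := by omega
    subst hk1
    have h3 : ∀ π : Perm (Fin 1), Ev (RT 1) π id := by
      intro π i j _
      rw [Subsingleton.elim i j]
    simp only [h3, if_true]
    simp

/-- `k` points of the torus -/
theorem conn_torus (d : ℕ) (hd : 1 ≤ d) (k : ℕ) (hk : 1 ≤ k) : ∃ C : ℝ, 0 < C ∧
    ∀ (L : ℕ) [NeZero L], 3 ≤ L → ∀ t : ℝ, 1 ≤ t →
    ∀ (b : Fin k → Fin d → ZMod L), Function.Injective b →
      PR (nnRate d L) t (RT k) b ≤ 1 / k + C * sc d L t := by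
  obtain ⟨C, hC, h⟩ := scale d hd
  refine ⟨3 * k * C + 3 * k ^ 2, by positivity, fun L _ hL t ht b hb => ?_⟩
  obtain ⟨r, η, hr1, hrL, hη0, hη1, hr2, hNN⟩ := h L hL t ht
  have hbox : ∀ x : Fin d → ZMod L, ∃ A : Finset (Fin d → ZMod L), x ∈ A ∧ A.card = r ^ d ∧
      ∀ y ∈ A, ∀ z ∈ A, tdist y z ≤ d * r := fun x => exists_box hr1 hrL x
  choose A hA1 hA2 hA3 using hbox
  have h1 := conn (J := nnRate d L) nn_nonneg (show 0 ≤ t by linarith) hk b hb
    (A := fun i => A (b i)) (n := r ^ d) (pow_pos hr1 d) (fun i => hA2 (b i)) η hη0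
    (fun i => hA1 (b i)) (fun i x hx y hy => hNN x y (hA3 (b i) x hx y hy))
  rw [unif_one hk] at h1
  refine h1.trans ?_
  have h2 : (k : ℝ) ^ 2 / ((r ^ d : ℕ) : ℝ) ≤ k ^ 2 * sc d L t := by
    rw [div_eq_mul_one_div]
    exact mul_le_mul_of_nonneg_left hr2 (by positivity)
  have h3 : 3 * (k : ℝ) * η ≤ 3 * k * (C * sc d L t) :=
    mul_le_mul_of_nonneg_left hη1 (by positivity)
  nlinarith

end Pool.Agent.Q295.CD
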