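import Pool.Agent.Q295.CD.Ky

/-!
# Jensen's inequality for the cycle fractions
-/

set_option autoImplicit false
set_option linter.unusedSectionVars false

namespace Pool.Agent.Q295.CD

open Finset Equiv
open Pool.Agent.Y998.ST
open Pool.Agent.Y998.LP (NN tdist bfrac)
open Pool.Agent.Y998.LQ (bfrac_nonneg bfrac_le_one)
open Pool.Agent.TH268.PD (Cyc cyOf top top_nonneg top_set_bdd top_set_empty top_le_one pdm stick)
open Pool.Agent.Q295.TP

section grp

variable {V : Type} [Fintype V] [DecidableEq V] [AddCommGroup V]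

/-- translate -/
def tr (B : Finset V) (z : V) : Finset V := B.map (Equiv.addRight z).toEmbedding

theorem tr_card (B : Finset V) (z : V) : (tr B z).card = B.card := Finset.card_map _

theorem mem_tr {B : Finset V} {z x : V} (h : x ∈ tr B z) : x - z ∈ B := by
  unfold tr at h
  rw [Finset.mem_map] at h
  obtain ⟨y, hy, rfl⟩ := h
  have : (Equiv.addRight z).toEmbedding y = y + z := rfl
  rw [this, add_sub_cancel_right]
  exact hy

theorem frac_avg (B : Finset V) (hB : 0 < B.card) (g : Perm V) (γ : Cyc g) :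
    bfrac univ g γ = (∑ z, bfrac (tr B z) g γ) / Fintype.card V := by
  classical
  have hBR : (0 : ℝ) < B.card := by exact_mod_cast hB
  simp only [bfrac_eq, tr_card]
  rw [Finset.card_univ, ← Finset.sum_div]
  congr 1
  rw [eq_div_iff hBR.ne']
  have h1 : ∀ z, ∑ x ∈ tr B z, (if cyOf g x = γ then (1 : ℝ) else 0) =
      ∑ x ∈ B, (if cyOf g (x + z) = γ then (1 : ℝ) else 0) := by
    intro z
    unfold tr
    rw [Finset.sum_map]
    rfl
  simp only [h1]
  rw [Finset.sum_comm]
  have h2 : ∀ x ∈ B, ∑ z, (if cyOf g (x + z) = γ then (1 : ℝ) else 0) =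
      ∑ w, (if cyOf g w = γ then (1 : ℝ) else 0) := fun x _ =>
    Equiv.sum_comp (Equiv.addLeft x) (fun w => if cyOf g w = γ then (1 : ℝ) else 0)
  rw [Finset.sum_congr rfl h2, Finset.sum_const, nsmul_eq_mul]
  ring

/-- partial sums of the ordered values -/
noncomputable def Sv {Γ : Type} [Fintype Γ] (m : ℕ) (u : Γ → ℝ) : Fin m → ℝ :=
  fun j => psum u ((j : ℕ) + 1)

theorem jensen (B : Finset V) (hB : 0 < B.card) (g : Perm V) [Fintype (Cyc g)] {m : ℕ}
    (F : (Fin m → ℝ) → ℝ) (hF : Monotone F) (hc : ConvexOn ℝ Set.univ F) :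
    F (Sv m (bfrac univ g)) ≤ (∑ z, F (Sv m (bfrac (tr B z) g))) / Fintype.card V := by
  have hN : (0 : ℝ) < Fintype.card V := by exact_mod_cast Fintype.card_pos
  have h1 : Sv m (bfrac univ g) ≤ ∑ z : V, (1 / (Fintype.card V : ℝ)) •
      Sv m (bfrac (tr B z) g) := by
    intro j
    rw [Finset.sum_apply]
    simp only [Pi.smul_apply, smul_eq_mul]
    unfold Sv
    have e1 : bfrac univ g = fun γ => (∑ z, bfrac (tr B z) g γ) / Fintype.card V := by
      funext γ
      exact frac_avg B hB g γ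
    rw [e1]
    refine (psum_avg (fun z => bfrac (tr B z) g) (fun z γ => bfrac_nonneg _ _ _) _).trans
      (le_of_eq ?_)
    rw [Finset.sum_div]
    exact Finset.sum_congr rfl fun z _ => by ring
  refine (hF h1).trans ?_
  have h2 := hc.map_sum_le (t := Finset.univ) (w := fun _ : V => 1 / (Fintype.card V : ℝ))
    (p := fun z => Sv m (bfrac (tr B z) g)) (fun z _ => by positivity) (by
      rw [Finset.sum_const, Finset.card_univ, nsmul_eq_mul]
      field_simp) (fun z _ => Set.mem_univ _)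
  refine h2.trans (le_of_eq ?_)
  rw [Finset.sum_div]
  exact Finset.sum_congr rfl fun z _ => by rw [smul_eq_mul]; ring

end grp

/-- clamped partial sums -/
noncomputable def cl (m : ℕ) (F : (Fin m → ℝ) → ℝ) (u : Fin m → ℝ) : ℝ :=
  F (fun j => ∑ i ∈ univ.filter (fun i : Fin m => i ≤ j), max 0 (min 1 (u i)))

theorem cl_cont {m : ℕ} {F : (Fin m → ℝ) → ℝ} (hF : Continuous F) : Continuous (cl m F) := by
  unfold cl
  refine hF.comp (continuous_pi fun j => ?_)
  fun_prop

theorem cl_bdd {m : ℕ} {F : (Fin m → ℝ) → ℝ} (hF : Continuous F) : ∃ C, ∀ u, |cl m F u| ≤ C := by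
  have hK : IsCompact (Set.Icc (0 : Fin m → ℝ) (fun _ => (m : ℝ))) := isCompact_Icc
  obtain ⟨C, hC⟩ := hK.exists_bound_of_continuousOn hF.continuousOn
  refine ⟨C, fun u => ?_⟩
  unfold cl
  refine hC _ ⟨fun j => ?_, fun j => ?_⟩
  · exact Finset.sum_nonneg fun i _ => le_max_left _ _
  · calc ∑ i ∈ univ.filter (fun i : Fin m => i ≤ j), max 0 (min 1 (u i))
        ≤ ∑ _i ∈ univ.filter (fun i : Fin m => i ≤ j), (1 : ℝ) :=
          Finset.sum_le_sum fun i _ => max_le zero_le_one (min_le_left _ _)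
      _ = ((univ.filter (fun i : Fin m => i ≤ j)).card : ℝ) := by
          rw [Finset.sum_const, nsmul_eq_mul, mul_one]
      _ ≤ (m : ℝ) := by
          have h1 := Finset.card_filter_le (univ : Finset (Fin m)) (fun i => i ≤ j)
          rw [Finset.card_univ, Fintype.card_fin] at h1
          exact_mod_cast h1

theorem cl_eq {m : ℕ} (F : (Fin m → ℝ) → ℝ) (u : Fin m → ℝ) (hu : ∀ i, 0 ≤ u i ∧ u i ≤ 1) :
    cl m F u = F (fun j => ∑ i ∈ univ.filter (fun i : Fin m => i ≤ j), u i) := by
  unfold cl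
  congr 1
  funext j
  refine Finset.sum_congr rfl fun i _ => ?_
  rw [min_eq_right (hu i).2, max_eq_right (hu i).1]

theorem fin_range {m : ℕ} (a : ℕ → ℝ) (j : Fin m) :
    ∑ i ∈ univ.filter (fun i : Fin m => i ≤ j), a i = ∑ i ∈ range ((j : ℕ) + 1), a i := by
  rw [Finset.sum_filter]
  have h1 : ∀ i : Fin m, (if i ≤ j then a i else 0) = if (i : ℕ) ≤ (j : ℕ) then a (i : ℕ) else 0 :=
    fun i => by simp only [Fin.le_def]
  simp only [h1]
  rw [Fin.sum_univ_eq_sum_range (fun i : ℕ => if i ≤ (j : ℕ) then a i else 0),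
    ← Finset.sum_filter]
  congr 1
  ext i
  rw [Finset.mem_filter, Finset.mem_range, Finset.mem_range]
  have := j.2
  omega

theorem cl_top {V : Type} [Fintype V] [DecidableEq V] {m : ℕ} (F : (Fin m → ℝ) → ℝ)
    (B : Finset V) (g : Perm V) [Fintype (Cyc g)] :
    cl m F (fun i => top (bfrac B g) i) = F (Sv m (bfrac B g)) := by
  rw [cl_eq F _ fun i => ⟨top_nonneg _ (bfrac_nonneg B g) i, top_le_one _ (bfrac_nonneg B g)
    (bfrac_le_one B g) i⟩]
  congr 1
  funext j
  exact fin_range (fun i => top (bfrac B g) i) j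

theorem stick_mem (U : ℕ → unitInterval) (i : ℕ) : 0 ≤ stick U i ∧ stick U i ≤ 1 := by
  unfold stick
  have hb : ∀ x ∈ {x : ℝ | ((i + 1 : ℕ) : ℕ∞) ≤ Set.encard {j : ℕ | x ≤ (U j : ℝ) *
      ∏ l ∈ Finset.range j, (1 - (U l : ℝ))}}, x ≤ 1 := by
    intro x hx
    simp only [Set.mem_ofPred_eq] at hx
    have hne : {j : ℕ | x ≤ (U j : ℝ) * ∏ l ∈ Finset.range j, (1 - (U l : ℝ))}.Nonempty := by
      rw [Set.nonempty_iff_ne_empty]
      intro h0
      rw [h0, Set.encard_empty] at hx
      simp at hx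
    obtain ⟨j, hj⟩ := hne
    refine hj.trans ?_
    refine mul_le_one₀ (U j).2.2 (Finset.prod_nonneg fun l _ => by linarith [(U l).2.2]) ?_
    exact Finset.prod_le_one (fun l _ => by linarith [(U l).2.2])
      (fun l _ => by linarith [(U l).2.1])
  constructor
  · refine le_csSup ⟨1, fun x hx => ?_⟩ ?_
    · refine hb x ?_
      simpa using hx
    · simp only [Set.mem_ofPred_eq]
      have h0 : {j : ℕ | (0 : ℝ) ≤ (U j : ℝ) * ∏ l ∈ Finset.range j, (1 - (U l : ℝ))} =
          Set.univ := by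
        ext j
        simp only [Set.mem_ofPred_eq, Set.mem_univ, iff_true]
        exact mul_nonneg (U j).2.1 (Finset.prod_nonneg fun l _ => by linarith [(U l).2.2])
      rw [h0, Set.encard_univ]
      simp
  · refine Real.sSup_le (fun x hx => hb x ?_) zero_le_one
    simpa using hx

theorem pdm_cl {m : ℕ} (F : (Fin m → ℝ) → ℝ) : pdm (cl m F) =
    pdm (fun u : Fin m → ℝ => F (fun j => ∑ i ∈ univ.filter (fun i : Fin m => i ≤ j), u i)) := by
  unfold pdm
  congr 1
  funext U
  exact cl_eq F _ fun i => stick_mem U i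

end Pool.Agent.Q295.CD
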