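import Pool.Agent.Q295.CD.Conn
import Pool.Agent.Q295.TP.Conv

/-!
# Sums of the largest values are convex
-/

set_option autoImplicit false
set_option linter.unusedSectionVars false

namespace Pool.Agent.Q295.CD

open Finset Equiv
open Pool.Agent.Y998.ST
open Pool.Agent.Y998.LP (NN tdist bfrac)
open Pool.Agent.Y998.LQ (bfrac_nonneg bfrac_le_one)
open Pool.Agent.TH268.PD (Cyc cyOf top top_nonneg top_set_bdd top_set_empty top_le_one)
open Pool.Agent.Q295.TP

section tops

variable {Γ : Type} [Fintype Γ]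

/-- the sum of the `j` largest values -/
noncomputable def psum (u : Γ → ℝ) (j : ℕ) : ℝ := ∑ i ∈ range j, top u i

theorem le_top (u : Γ → ℝ) (i : ℕ) (x : ℝ) (h : i + 1 ≤ Nat.card {γ : Γ // x ≤ u γ}) :
    x ≤ top u i := le_csSup (top_set_bdd u i) h

theorem psum_ge (u : Γ → ℝ) (hu : ∀ γ, 0 ≤ u γ) (n : ℕ) : ∀ (j : ℕ), n ≤ j → ∀ T : Finset Γ,
    T.card = n → ∑ γ ∈ T, u γ ≤ psum u j := by
  classical
  induction n with
  | zero =>
    intro j _ T hT
    rw [Finset.card_eq_zero] at hT
    subst hT
    rw [Finset.sum_empty]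
    exact Finset.sum_nonneg fun i _ => top_nonneg u hu i
  | succ n ih =>
    intro j hj T hT
    obtain ⟨γ, hγ, hmin⟩ := Finset.exists_min_image T u (Finset.card_pos.1 (by omega))
    obtain ⟨i, rfl⟩ : ∃ i, j = i + 1 := ⟨j - 1, by omega⟩
    have h1 := ih n le_rfl (T.erase γ) (by rw [Finset.card_erase_of_mem hγ]; omega)
    have h2 : u γ ≤ top u n := by
      apply le_top
      rw [Nat.card_eq_fintype_card, Fintype.card_subtype]
      rw [← hT]
      exact Finset.card_le_card fun x hx => by
        rw [Finset.mem_filter]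
        exact ⟨Finset.mem_univ _, hmin x hx⟩
    rw [← Finset.add_sum_erase T u hγ]
    unfold psum at h1 ⊢
    have h3 : ∑ i ∈ range (n + 1), top u i ≤ ∑ i ∈ range (i + 1), top u i :=
      Finset.sum_le_sum_of_subset_of_nonneg (Finset.range_subset_range.2 (by omega))
        fun k _ _ => top_nonneg u hu k
    rw [Finset.sum_range_succ] at h3
    linarith

theorem psum_att (u : Γ → ℝ) (j : ℕ) : ∃ T : Finset Γ, T.card ≤ j ∧
    psum u j = ∑ γ ∈ T, u γ := by
  classical
  obtain ⟨e, he⟩ := exists_sort u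
  refine ⟨Finset.univ.filter (fun γ => ((e.symm γ : Fin _) : ℕ) < j), ?_, ?_⟩
  · have h1 : (Finset.univ.filter (fun γ => ((e.symm γ : Fin _) : ℕ) < j)).card ≤
        (range j).card := by
      refine Finset.card_le_card_of_injOn (fun γ => ((e.symm γ : Fin _) : ℕ)) ?_ ?_
      · intro γ hγ
        have h2 := (Finset.mem_filter.1 hγ).2
        exact Finset.mem_coe.2 (Finset.mem_range.2 h2)
      · intro a _ b _ hab
        exact e.symm.injective (Fin.ext hab)
    rwa [Finset.card_range] at h1
  · rw [Finset.sum_filter, ← Equiv.sum_comp e]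
    simp only [Equiv.symm_apply_apply]
    have h1 : ∀ i : Fin (Fintype.card Γ), (if (i : ℕ) < j then u (e i) else 0) =
        if (i : ℕ) < j then top u (i : ℕ) else 0 := by
      intro i
      rw [top_sort u e he]
    simp only [h1]
    rw [Fin.sum_univ_eq_sum_range (fun i : ℕ => if i < j then top u i else 0),
      ← Finset.sum_filter]
    unfold psum
    symm
    refine Finset.sum_subset (fun i hi => ?_) (fun i hi hi2 => ?_)
    · rw [Finset.mem_filter] at hi
      exact Finset.mem_range.2 hi.2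
    · rw [Finset.mem_filter, Finset.mem_range, not_and] at hi2
      have h2 : Fintype.card Γ ≤ i := by
        by_contra hc
        exact hi2 (by omega) (Finset.mem_range.1 hi)
      unfold top
      rw [top_set_empty u _ (by rw [Nat.card_eq_fintype_card]; omega), Real.sSup_empty]

/-- convexity -/
theorem psum_avg {ι : Type} [Fintype ι] [Nonempty ι] (v : ι → Γ → ℝ) (hv : ∀ z γ, 0 ≤ v z γ)
    (j : ℕ) : psum (fun γ => (∑ z, v z γ) / Fintype.card ι) j ≤
      (∑ z, psum (v z) j) / Fintype.card ι := by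
  have hN : (0 : ℝ) < Fintype.card ι := by exact_mod_cast Fintype.card_pos
  obtain ⟨T, hT, hTe⟩ := psum_att (fun γ => (∑ z, v z γ) / Fintype.card ι) j
  rw [hTe, ← Finset.sum_div, Finset.sum_comm]
  refine div_le_div_of_nonneg_right (Finset.sum_le_sum fun z _ => ?_) hN.le
  exact psum_ge (v z) (hv z) T.card j hT T rfl

theorem psum_nonneg (u : Γ → ℝ) (hu : ∀ γ, 0 ≤ u γ) (j : ℕ) : 0 ≤ psum u j :=
  Finset.sum_nonneg fun i _ => top_nonneg u hu i

end tops

end Pool.Agent.Q295.CD
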