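import Pool.Agent.Q295.CD.Jen

/-!
# One `k`-point probability decides
-/

set_option autoImplicit false
set_option linter.unusedSectionVars false

namespace Pool.Agent.Q295.CD

open Finset Equiv
open Pool.Agent.Y998.ST
open Pool.Agent.Y998.LP (NN tdist bfrac)
open Pool.Agent.Y998.LQ (bfrac_nonneg bfrac_le_one)
open Pool.Agent.TH268.PD (Cyc cyOf pdm)
open Pool.Agent.Q295.TP

/-- a power is uniformly convex -/
theorem pow_gap (x p : ℝ) (hx : 0 ≤ x) (hp : 0 ≤ p) (k : ℕ) (hk : 2 ≤ k) :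
    |x - p| ^ k ≤ x ^ k - p ^ k - k * p ^ (k - 1) * (x - p) := by
  induction k, hk using Nat.le_induction with
  | base =>
    rw [sq_abs]
    norm_num
    nlinarith
  | succ k hk ih =>
    obtain ⟨j, rfl⟩ : ∃ j, k = j + 2 := ⟨k - 2, by omega⟩
    have e1 : j + 2 - 1 = j + 1 := by omega
    have e2 : j + 2 + 1 - 1 = j + 2 := by omega
    rw [e1] at ih
    rw [e2]
    obtain ⟨D, hD⟩ : ∃ D, D = x ^ (j + 2) - p ^ (j + 2) - ((j + 2 : ℕ) : ℝ) * p ^ (j + 1) * (x - p) :=
      ⟨_, rfl⟩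
    rw [← hD] at ih
    have e3 : x ^ (j + 2 + 1) - p ^ (j + 2 + 1) - ((j + 2 + 1 : ℕ) : ℝ) * p ^ (j + 2) * (x - p) =
        x * D + ((j + 2 : ℕ) : ℝ) * p ^ (j + 1) * (x - p) ^ 2 := by
      rw [hD]
      push_cast
      ring
    rw [e3]
    have h0 : 0 ≤ |x - p| := abs_nonneg _
    have hxD : x * |x - p| ^ (j + 2) ≤ x * D := mul_le_mul_of_nonneg_left ih hx
    have hpj : 0 ≤ p ^ (j + 1) := pow_nonneg hp _
    have h1 : p ^ (j + 1) * (x - p) ^ 2 ≤ ((j + 2 : ℕ) : ℝ) * p ^ (j + 1) * (x - p) ^ 2 := by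
      have h2 : (1 : ℝ) ≤ ((j + 2 : ℕ) : ℝ) := by push_cast; linarith [show (0 : ℝ) ≤ j by positivity]
      have h3 : 0 ≤ p ^ (j + 1) * (x - p) ^ 2 := by positivity
      nlinarith
    rcases le_total p x with h | h
    · have h2 : |x - p| ≤ x := by rw [abs_of_nonneg (by linarith)]; linarith
      have h3 : |x - p| ^ (j + 2 + 1) ≤ x * |x - p| ^ (j + 2) := by
        rw [pow_succ']
        exact mul_le_mul_of_nonneg_right h2 (by positivity)
      have h4 : 0 ≤ p ^ (j + 1) * (x - p) ^ 2 := by positivity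
      linarith
    · have h2 : |x - p| = p - x := by rw [abs_sub_comm]; exact abs_of_nonneg (by linarith)
      have h3 : p * |x - p| ^ (j + 2) ≤ p ^ (j + 1) * (x - p) ^ 2 := by
        have h4 : |x - p| ^ j ≤ p ^ j := pow_le_pow_left₀ h0 (by rw [h2]; linarith) j
        calc p * |x - p| ^ (j + 2) = p * |x - p| ^ j * (x - p) ^ 2 := by
              rw [← sq_abs (x - p)]; ring
          _ ≤ p * p ^ j * (x - p) ^ 2 := by
              refine mul_le_mul_of_nonneg_right (mul_le_mul_of_nonneg_left h4 hp) (sq_nonneg _)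
          _ = _ := by ring
      have h4 : |x - p| ^ (j + 2 + 1) ≤ x * |x - p| ^ (j + 2) + p * |x - p| ^ (j + 2) := by
        rw [pow_succ', ← add_mul]
        refine mul_le_mul_of_nonneg_right ?_ (by positivity)
        rw [h2]
        linarith
      linarith

theorem sq_split (a θ : ℝ) (hθ : 0 < θ) (k : ℕ) (hk : 2 ≤ k) :
    a ^ 2 ≤ θ * |a| + |a| ^ k / θ ^ (k - 2) := by
  obtain ⟨j, rfl⟩ : ∃ j, k = j + 2 := ⟨k - 2, by omega⟩
  have e1 : j + 2 - 2 = j := by omega
  rw [e1, ← sq_abs]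
  have h0 := abs_nonneg a
  rcases le_total |a| θ with h | h
  · have h1 : |a| ^ 2 ≤ θ * |a| := by nlinarith
    have h2 : 0 ≤ |a| ^ (j + 2) / θ ^ j := by positivity
    linarith
  · have h1 : |a| ^ 2 ≤ |a| ^ (j + 2) / θ ^ j := by
      rw [le_div_iff₀ (by positivity), pow_add, mul_comm]
      exact mul_le_mul_of_nonneg_right (pow_le_pow_left₀ hθ.le h j) (by positivity)
    have h2 : 0 ≤ θ * |a| := by positivity
    linarith

section grp

variable {V : Type} [Fintype V] [DecidableEq V] [AddCommGroup V]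

theorem av_pow {k : ℕ} (hk : 1 ≤ k) (A : Finset V) (g : Perm V) [Fintype (Cyc g)] :
    av (fun _ : Fin k => A) (ei (RT k) g) = ∑ γ : Cyc g, bfrac A g γ ^ k := by
  rw [av_prod hk]
  refine Finset.sum_congr rfl fun γ _ => ?_
  rw [Finset.prod_const, Finset.card_univ, Fintype.card_fin]

theorem bfrac_sum' (A : Finset V) (hA : 0 < A.card) (g : Perm V) [Fintype (Cyc g)] :
    ∑ γ : Cyc g, bfrac A g γ = 1 := by
  classical
  have hAR : (0 : ℝ) < A.card := by exact_mod_cast hA
  simp only [bfrac_eq]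
  rw [← Finset.sum_div, Finset.sum_comm]
  simp only [Finset.sum_ite_eq, Finset.mem_univ, if_true]
  rw [Finset.sum_const, nsmul_eq_mul, mul_one, div_self hAR.ne']

/-- pointwise -/
theorem rig_pt (B : Finset V) (hB : 0 < B.card) (g : Perm V) {k : ℕ} (hk : 2 ≤ k) {θ : ℝ}
    (hθ : 0 < θ) :
    (∑ z, dd (tr B z) univ g) / Fintype.card V ≤ 2 * θ +
      ((∑ z, av (fun _ : Fin k => tr B z) (ei (RT k) g)) / Fintype.card V -
        av (fun _ : Fin k => (univ : Finset V)) (ei (RT k) g)) / θ ^ (k - 2) := by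
  classical
  haveI : Finite (Cyc g) := Quotient.finite _
  haveI := Fintype.ofFinite (Cyc g)
  have hN : (0 : ℝ) < Fintype.card V := by exact_mod_cast Fintype.card_pos
  have hU : 0 < (Finset.univ : Finset V).card := Finset.card_pos.2 Finset.univ_nonempty
  have hk1 : 1 ≤ k := by omega
  simp only [av_pow hk1, ← dd_eq]
  obtain ⟨p, hp⟩ : ∃ p : Cyc g → ℝ, p = fun γ => bfrac univ g γ := ⟨_, rfl⟩
  obtain ⟨x, hx⟩ : ∃ x : V → Cyc g → ℝ, x = fun z γ => bfrac (tr B z) g γ := ⟨_, rfl⟩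
  have hp' : ∀ γ, bfrac univ g γ = p γ := fun γ => by rw [hp]
  have hx' : ∀ z γ, bfrac (tr B z) g γ = x z γ := fun z γ => by rw [hx]
  have hp0 : ∀ γ, 0 ≤ p γ := fun γ => by rw [← hp']; exact bfrac_nonneg _ _ _
  have hx0 : ∀ z γ, 0 ≤ x z γ := fun z γ => by rw [← hx']; exact bfrac_nonneg _ _ _
  have hps : ∑ γ, p γ = 1 := by rw [hp]; exact bfrac_sum' univ hU g
  have hxs : ∀ z, ∑ γ, x z γ = 1 := fun z => by
    rw [hx]; exact bfrac_sum' (tr B z) (by rw [tr_card]; exact hB) g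
  have havg : ∀ γ, ∑ z, x z γ = Fintype.card V * p γ := by
    intro γ
    have h1 := frac_avg B hB g γ
    rw [hp', eq_div_iff hN.ne'] at h1
    simp only [hx'] at h1
    linarith
  simp only [hp', hx']
  have h1 : ∀ z, ∑ γ, (x z γ - p γ) ^ 2 ≤ 2 * θ + (∑ γ, |x z γ - p γ| ^ k) / θ ^ (k - 2) := by
    intro z
    have h2 : ∑ γ, (x z γ - p γ) ^ 2 ≤ ∑ γ, (θ * |x z γ - p γ| + |x z γ - p γ| ^ k / θ ^ (k - 2)) :=
      Finset.sum_le_sum fun γ _ => sq_split _ θ hθ k hk
    rw [Finset.sum_add_distrib, ← Finset.mul_sum, ← Finset.sum_div] at h2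
    have h3 : ∑ γ, |x z γ - p γ| ≤ 2 := by
      calc ∑ γ, |x z γ - p γ| ≤ ∑ γ, (x z γ + p γ) := Finset.sum_le_sum fun γ _ => by
            refine (abs_sub _ _).trans (le_of_eq ?_)
            rw [abs_of_nonneg (hx0 z γ), abs_of_nonneg (hp0 γ)]
        _ = 2 := by rw [Finset.sum_add_distrib, hps, hxs]; norm_num
    have h4 := mul_le_mul_of_nonneg_left h3 hθ.le
    linarith
  have h2 : ∑ z, ∑ γ, |x z γ - p γ| ^ k ≤ ∑ z, ∑ γ, x z γ ^ k -
      Fintype.card V * ∑ γ, p γ ^ k := by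
    have h3 : ∀ z, ∑ γ, |x z γ - p γ| ^ k ≤ ∑ γ, (x z γ ^ k - p γ ^ k -
        k * p γ ^ (k - 1) * (x z γ - p γ)) := fun z =>
      Finset.sum_le_sum fun γ _ => pow_gap _ _ (hx0 z γ) (hp0 γ) k hk
    refine (Finset.sum_le_sum fun z _ => h3 z).trans (le_of_eq ?_)
    simp only [Finset.sum_sub_distrib]
    have h4 : ∑ z : V, ∑ γ, (k : ℝ) * p γ ^ (k - 1) * (x z γ - p γ) = 0 := by
      rw [Finset.sum_comm]
      refine Finset.sum_eq_zero fun γ _ => ?_
      rw [← Finset.mul_sum, Finset.sum_sub_distrib, havg, Finset.sum_const, Finset.card_univ,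
        nsmul_eq_mul, sub_self, mul_zero]
    rw [h4, Finset.sum_const (∑ γ, p γ ^ k), Finset.card_univ, nsmul_eq_mul, sub_zero]
  have hθk : 0 < θ ^ (k - 2) := by positivity
  have h3 := Finset.sum_le_sum (s := (Finset.univ : Finset V)) fun z _ => h1 z
  rw [Finset.sum_add_distrib, Finset.sum_const, Finset.card_univ, nsmul_eq_mul,
    ← Finset.sum_div] at h3
  rw [div_le_iff₀ hN]
  have h4 : (∑ z, ∑ γ, |x z γ - p γ| ^ k) / θ ^ (k - 2) ≤ (∑ z, ∑ γ, x z γ ^ k -
      Fintype.card V * ∑ γ, p γ ^ k) / θ ^ (k - 2) := div_le_div_of_nonneg_right h2 hθk.le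
  refine (h3.trans (add_le_add le_rfl h4)).trans (le_of_eq ?_)
  field_simp

/-- the two-point probability from one `k`-point probability -/
theorem rig {J : V → V → ℝ} (hJ : ∀ x y, 0 ≤ J x y) {t : ℝ} (ht : 0 ≤ t)
    (hT : ∀ x x', ∑ y, gg J t x y = ∑ y, gg J t x' y) {B : Finset V} {n : ℕ} (hn : 0 < n)
    (hB : B.card = n) {η : ℝ} (hη : 0 ≤ η)
    (h : ∀ z, ∀ x ∈ tr B z, ∀ y ∈ tr B z, NN J t (swap x y) ≤ η) {k : ℕ} (hk : 2 ≤ k) {θ : ℝ}
    (hθ : 0 < θ) :
    1 / 2 - qq2 J t ≤ 2 * η + 4 / n + 2 * θ + (1 / k + (k * η + (k : ℝ) ^ 2 / n) -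
      av (fun _ : Fin k => (univ : Finset V)) (PR J t (RT k))) / θ ^ (k - 2) := by
  have hN : (0 : ℝ) < Fintype.card V := by exact_mod_cast Fintype.card_pos
  have hB0 : 0 < B.card := by rw [hB]; exact hn
  have hθk : 0 < θ ^ (k - 2) := by positivity
  have h1 := exp_mono hJ ht (fun g => rig_pt B hB0 g hk hθ)
  have e1 : stirExp J t (fun g => (∑ z, dd (tr B z) univ g) / Fintype.card V) =
      (∑ z, stirExp J t (fun g => dd (tr B z) univ g)) / Fintype.card V := by
    rw [exp_sum]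
    unfold stirExp
    rw [Finset.sum_div]
    exact Finset.sum_congr rfl fun g _ => by ring
  have e2 : stirExp J t (fun g => 2 * θ +
      ((∑ z, av (fun _ : Fin k => tr B z) (ei (RT k) g)) / Fintype.card V -
        av (fun _ : Fin k => (univ : Finset V)) (ei (RT k) g)) / θ ^ (k - 2)) =
      2 * θ + ((∑ z, av (fun _ : Fin k => tr B z) (PR J t (RT k))) / Fintype.card V -
        av (fun _ : Fin k => (univ : Finset V)) (PR J t (RT k))) / θ ^ (k - 2) := by
    simp only [exp_av']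
    rw [exp_sum]
    have e3 : ∀ F G : Perm V → ℝ, stirExp J t (fun g => 2 * θ +
        (F g / Fintype.card V - G g) / θ ^ (k - 2)) = 2 * θ + (stirExp J t F / Fintype.card V -
          stirExp J t G) / θ ^ (k - 2) := by
      intro F G
      have h2 : stirExp J t (fun g => 2 * θ + (F g / Fintype.card V - G g) / θ ^ (k - 2)) =
          ∑ g, (stirLaw J t g * (2 * θ) + (stirLaw J t g * F g / Fintype.card V -
            stirLaw J t g * G g) / θ ^ (k - 2)) := by
        unfold stirExp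
        refine Finset.sum_congr rfl fun g _ => ?_
        field_simp
      rw [h2, Finset.sum_add_distrib, ← Finset.sum_mul, Pool.Agent.Y998.CN.law_sum, one_mul,
        ← Finset.sum_div, Finset.sum_sub_distrib, ← Finset.sum_div]
      rfl
    exact e3 _ _
  rw [e1, e2] at h1
  have h2 : ∀ z, 1 / 2 - (2 * η + 4 / n) - qq2 J t ≤ stirExp J t (fun g => dd (tr B z) univ g) := by
    intro z
    have hc : 0 < (tr B z).card := by rw [tr_card]; exact hB0
    rw [exp_dd_univ hT (tr B z) hc]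
    have h3 := stepC hJ ht (RT 2) hn (by rw [tr_card]; exact hB) η hη (h z)
    rw [unif_one (by norm_num), exp_av'] at h3
    have h4 : (fun g => av (fun _ : Fin 2 => tr B z) (ei (RT 2) g)) =
        fun g => ov (tr B z) (tr B z) g := by
      funext g
      haveI : Finite (Cyc g) := Quotient.finite _
      haveI := Fintype.ofFinite (Cyc g)
      rw [av_pow (by norm_num), ← ov_eq]
      exact Finset.sum_congr rfl fun γ _ => by ring
    rw [h4] at h3
    have h5 := (abs_le.1 h3).2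
    push_cast at h5
    linarith
  have h3 : 1 / 2 - (2 * η + 4 / n) - qq2 J t ≤
      (∑ z, stirExp J t (fun g => dd (tr B z) univ g)) / Fintype.card V := by
    rw [le_div_iff₀ hN]
    have h4 := Finset.sum_le_sum (s := (Finset.univ : Finset V)) fun z _ => h2 z
    rw [Finset.sum_const, Finset.card_univ, nsmul_eq_mul] at h4
    linarith
  have h4 : (∑ z, av (fun _ : Fin k => tr B z) (PR J t (RT k))) / Fintype.card V ≤
      1 / k + (k * η + (k : ℝ) ^ 2 / n) := by
    rw [div_le_iff₀ hN]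
    have h5 : ∀ z, av (fun _ : Fin k => tr B z) (PR J t (RT k)) ≤
        1 / k + (k * η + (k : ℝ) ^ 2 / n) := by
      intro z
      have h6 := stepC hJ ht (RT k) hn (by rw [tr_card]; exact hB) η hη (h z)
      rw [unif_one (by omega)] at h6
      linarith [(abs_le.1 h6).1]
    have h6 := Finset.sum_le_sum (s := (Finset.univ : Finset V)) fun z _ => h5 z
    rw [Finset.sum_const, Finset.card_univ, nsmul_eq_mul] at h6
    linarith
  have h5 : ((∑ z, av (fun _ : Fin k => tr B z) (PR J t (RT k))) / Fintype.card V -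
        av (fun _ : Fin k => (univ : Finset V)) (PR J t (RT k))) / θ ^ (k - 2) ≤
      (1 / k + (k * η + (k : ℝ) ^ 2 / n) -
        av (fun _ : Fin k => (univ : Finset V)) (PR J t (RT k))) / θ ^ (k - 2) :=
    div_le_div_of_nonneg_right (by linarith) hθk.le
  linarith

/-- domination -/
theorem dominate {J : V → V → ℝ} (hJ : ∀ x y, 0 ≤ J x y) {t : ℝ} (ht : 0 ≤ t) {m : ℕ}
    (F : (Fin m → ℝ) → ℝ) (hF : Monotone F) (hc : ConvexOn ℝ Set.univ F) (B : Finset V)
    (hB : 0 < B.card) (ε : ℝ)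
    (h : ∀ z, |stirExp J t (fun g => cl m F (fun i => Pool.Agent.TH268.PD.top
      (bfrac (tr B z) g) i)) - pdm (cl m F)| ≤ ε) :
    stirExp J t (fun g => cl m F (fun i => Pool.Agent.TH268.PD.top (bfrac univ g) i)) ≤
      pdm (cl m F) + ε := by
  have hN : (0 : ℝ) < Fintype.card V := by exact_mod_cast Fintype.card_pos
  have h1 : stirExp J t (fun g => cl m F (fun i => Pool.Agent.TH268.PD.top (bfrac univ g) i)) ≤
      stirExp J t (fun g => (∑ z, cl m F (fun i => Pool.Agent.TH268.PD.top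
        (bfrac (tr B z) g) i)) / Fintype.card V) := by
    refine exp_mono hJ ht fun g => ?_
    haveI : Finite (Cyc g) := Quotient.finite _
    haveI := Fintype.ofFinite (Cyc g)
    simp only [cl_top]
    exact jensen B hB g F hF hc
  have e1 : stirExp J t (fun g => (∑ z, cl m F (fun i => Pool.Agent.TH268.PD.top
        (bfrac (tr B z) g) i)) / Fintype.card V) = (∑ z, stirExp J t (fun g => cl m F (fun i =>
          Pool.Agent.TH268.PD.top (bfrac (tr B z) g) i))) / Fintype.card V := by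
    rw [exp_sum]
    unfold stirExp
    rw [Finset.sum_div]
    exact Finset.sum_congr rfl fun g _ => by ring
  rw [e1] at h1
  refine h1.trans ?_
  rw [div_le_iff₀ hN]
  have h2 : ∀ z, stirExp J t (fun g => cl m F (fun i => Pool.Agent.TH268.PD.top
      (bfrac (tr B z) g) i)) ≤ pdm (cl m F) + ε := fun z => by
    have := (abs_le.1 (h z)).2
    linarith
  have h3 := Finset.sum_le_sum (s := (Finset.univ : Finset V)) fun z _ => h2 z
  rw [Finset.sum_const, Finset.card_univ, nsmul_eq_mul] at h3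
  linarith

end grp

end Pool.Agent.Q295.CD
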